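import Mathlib

namespace Pool.Agent.R957.MaxU

/-- `x` and `y` are nearest neighbours of `Z^d` (Euclidean distance one). -/
def Nbr {d : ℕ} (x y : Fin d → ℤ) : Prop := ∑ i, (x i - y i) ^ 2 = 1

open Classical in
/-- The matrix `F` with parameters `beta`, `gamma`. -/
noncomputable def F (d : ℕ) (β γ : ℝ) (x y : Fin d → ℤ) : ℝ :=
  if x = y then -β else if Nbr x y then γ / (2 * (d : ℝ)) else 0

/-- `⟨f, F f⟩ = ∑_x ∑_y f(x) F(x,y) f(y)`. -/
noncomputable def energy {d : ℕ} (β γ : ℝ) (f : (Fin d → ℤ) → ℝ) : ℝ :=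
  ∑' x, ∑' y, f x * F d β γ x y * f y

/-- The first `n` steps of `w` are nearest neighbour steps, so `(w_0, ..., w_n)` is an `n`-step
path. -/
def IsPath {d : ℕ} (n : ℕ) (w : ℕ → Fin d → ℤ) : Prop := ∀ i, i < n → Nbr (w (i + 1)) (w i)

open Classical in
/-- Local time at `x` of `(w_0, ..., w_n)`: the number of `0 ≤ i ≤ n` with `w_i = x`. -/
noncomputable def localTime {d : ℕ} (n : ℕ) (w : ℕ → Fin d → ℤ) (x : Fin d → ℤ) : ℝ :=
  (((Finset.range (n + 1)).filter (fun i => w i = x)).card : ℝ)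

open Classical in
/-- The endpoint corrected local time. -/
noncomputable def corrected {d : ℕ} (n : ℕ) (w : ℕ → Fin d → ℤ) (x : Fin d → ℤ) : ℝ :=
  localTime n w x - (if w 0 = x then 1 / 2 else 0) - (if w n = x then 1 / 2 else 0)

/-- The set `𝓕`: probability measures on `Z^d` that are pointwise limits of
`corrected n_k w^(k) / n_k` for some `n_k → ∞` and `n_k`-step paths `w^(k)`. -/
def InF {d : ℕ} (f : (Fin d → ℤ) → ℝ) : Prop :=
  (∀ x, 0 ≤ f x) ∧ HasSum f 1 ∧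
    ∃ (n : ℕ → ℕ) (w : ℕ → ℕ → Fin d → ℤ), Filter.Tendsto n Filter.atTop Filter.atTop ∧
      (∀ k, IsPath (n k) (w k)) ∧
      ∀ x, Filter.Tendsto (fun k => corrected (n k) (w k) x / (n k : ℝ)) Filter.atTop
        (nhds (f x))

/-- A maximiser of the energy over `𝓕`. -/
def IsMaximiser {d : ℕ} (β γ : ℝ) (f : (Fin d → ℤ) → ℝ) : Prop :=
  InF f ∧ ∀ g : (Fin d → ℤ) → ℝ, InF g → energy β γ g ≤ energy β γ f

/-- Lattice isometries `x ↦ σ(x) + z`, `σ` a signed permutation of the coordinates. -/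
def IsLatticeIsometry {d : ℕ} (φ : (Fin d → ℤ) → (Fin d → ℤ)) : Prop :=
  ∃ (σ : Equiv.Perm (Fin d)) (ε : Fin d → ℤ) (z : Fin d → ℤ), (∀ i, ε i = 1 ∨ ε i = -1) ∧
    ∀ x i, φ x i = ε i * x (σ i) + z i

end Pool.Agent.R957.MaxU
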