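import Pool.Agent.R957.MaxU.NineSite

namespace Pool.Agent.R957.MaxU

open Finset

/-- sum over the four neighbours -/
def Nb (g : ℤ × ℤ → ℝ) (y : ℤ × ℤ) : ℝ :=
  g (y.1 + 1, y.2) + g (y.1, y.2 + 1) + g (y.1 - 1, y.2) + g (y.1, y.2 - 1)

/-- the four neighbours -/
def nb (y : ℤ × ℤ) : Finset (ℤ × ℤ) :=
  {(y.1 + 1, y.2), (y.1, y.2 + 1), (y.1 - 1, y.2), (y.1, y.2 - 1)}

theorem sum_nb (g : ℤ × ℤ → ℝ) (y : ℤ × ℤ) : ∑ z ∈ nb y, g z = Nb g y := by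
  unfold nb Nb
  rw [sum_insert, sum_insert, sum_insert, sum_singleton]
  · ring
  all_goals
    simp only [mem_insert, mem_singleton, Prod.ext_iff]
    omega

theorem one_dim (P : ℤ → Prop) (hodd : ∀ a, P a → a % 2 = 1)
    (hd : ∀ a b, P a → P b → a ≤ b + 2) :
    ∃ m : ℤ, m % 2 = 0 ∧ ∀ a, P a → a = m - 1 ∨ a = m + 1 := by
  by_cases hne : ∃ a, P a
  · obtain ⟨s0, hs0⟩ := hne
    by_cases h1 : P (s0 - 2)
    · refine ⟨s0 - 1, ?_, ?_⟩
      · have := hodd _ hs0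
        omega
      · intro a ha
        have h2 := hd _ _ ha h1
        have h3 := hd _ _ hs0 ha
        have h4 := hodd _ hs0
        have h5 := hodd _ ha
        omega
    · refine ⟨s0 + 1, ?_, ?_⟩
      · have := hodd _ hs0
        omega
      · intro a ha
        have h2 := hd _ _ ha hs0
        have h3 := hd _ _ hs0 ha
        have h4 := hodd _ hs0
        have h5 := hodd _ ha
        have h6 : a ≠ s0 - 2 := by
          rintro rfl
          exact h1 ha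
        omega
  · exact ⟨0, by norm_num, fun a ha => absurd ⟨a, ha⟩ hne⟩

/-- if the neighbour sums of `y`, `y'` exceed the total mass then they are close -/
theorem close_of {g : ℤ × ℤ → ℝ} (hg0 : ∀ x, 0 ≤ g x) (hg : Summable g) {y z : ℤ × ℤ}
    (h : ∑' x, g x < Nb g y + Nb g z) :
    (y.1 + y.2 ≤ z.1 + z.2 + 2) ∧ (y.1 - y.2 ≤ z.1 - z.2 + 2) := by
  by_contra hcon
  have hdis : Disjoint (nb y) (nb z) := by
    rw [Finset.disjoint_left]
    intro a ha hb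
    apply hcon
    unfold nb at ha hb
    simp only [mem_insert, mem_singleton, Prod.ext_iff] at ha hb
    omega
  have h1 : ∑ x ∈ nb y ∪ nb z, g x ≤ ∑' x, g x := hg.sum_le_tsum _ (fun x _ => hg0 x)
  rw [sum_union hdis, sum_nb, sum_nb] at h1
  linarith

theorem cover {g : ℤ × ℤ → ℝ} (hg0 : ∀ x, 0 ≤ g x) (hg : Summable g) :
    ∃ v : ℤ × ℤ, ∀ y : ℤ × ℤ, (y.1 + y.2) % 2 = 1 → 0 < 2 * Nb g y - ∑' x, g x → y ∈ nb v := by
  obtain ⟨m, hm0, hm⟩ := one_dim (fun a => ∃ y : ℤ × ℤ, (y.1 + y.2) % 2 = 1 ∧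
      0 < 2 * Nb g y - ∑' x, g x ∧ y.1 + y.2 = a)
    (by rintro a ⟨y, h1, h2, rfl⟩; exact h1)
    (by
      rintro a b ⟨y, h1, h2, rfl⟩ ⟨z, h3, h4, rfl⟩
      exact (close_of hg0 hg (by linarith)).1)
  obtain ⟨k, hk0, hk⟩ := one_dim (fun a => ∃ y : ℤ × ℤ, (y.1 + y.2) % 2 = 1 ∧
      0 < 2 * Nb g y - ∑' x, g x ∧ y.1 - y.2 = a)
    (by rintro a ⟨y, h1, h2, rfl⟩; omega)
    (by
      rintro a b ⟨y, h1, h2, rfl⟩ ⟨z, h3, h4, rfl⟩
      exact (close_of hg0 hg (by linarith)).2)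
  refine ⟨((m + k) / 2, (m - k) / 2), ?_⟩
  intro y h1 h2
  have e1 := hm _ ⟨y, h1, h2, rfl⟩
  have e2 := hk _ ⟨y, h1, h2, rfl⟩
  unfold nb
  simp only [mem_insert, mem_singleton, Prod.ext_iff]
  omega

theorem Nb_le {g : ℤ × ℤ → ℝ} (hg0 : ∀ x, 0 ≤ g x) (hg : Summable g) (y : ℤ × ℤ) :
    Nb g y ≤ ∑' x, g x := by
  rw [← sum_nb]
  exact hg.sum_le_tsum _ (fun x _ => hg0 x)

theorem Nb_nonneg {g : ℤ × ℤ → ℝ} (hg0 : ∀ x, 0 ≤ g x) (y : ℤ × ℤ) : 0 ≤ Nb g y := by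
  rw [← sum_nb]
  exact sum_nonneg (fun x _ => hg0 x)

/-- nine sites around `v` -/
def ns (v : ℤ × ℤ) : Finset (ℤ × ℤ) :=
  {(v.1, v.2), (v.1 + 1, v.2 + 1), (v.1 + 1, v.2 - 1), (v.1 - 1, v.2 - 1), (v.1 - 1, v.2 + 1),
    (v.1 + 2, v.2), (v.1, v.2 + 2), (v.1 - 2, v.2), (v.1, v.2 - 2)}

theorem sum_ns (g : ℤ × ℤ → ℝ) (v : ℤ × ℤ) : ∑ z ∈ ns v, g z =
    g (v.1, v.2) + g (v.1 + 1, v.2 + 1) + g (v.1 + 1, v.2 - 1) + g (v.1 - 1, v.2 - 1) +
     g (v.1 - 1, v.2 + 1) + g (v.1 + 2, v.2) + g (v.1, v.2 + 2) + g (v.1 - 2, v.2) +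
     g (v.1, v.2 - 2) := by
  unfold ns
  rw [sum_insert, sum_insert, sum_insert, sum_insert, sum_insert, sum_insert, sum_insert,
    sum_insert, sum_singleton]
  · ring
  all_goals
    simp only [mem_insert, mem_singleton, Prod.ext_iff]
    omega

theorem local_bound {g : ℤ × ℤ → ℝ} (hg0 : ∀ x, 0 ≤ g x) (hg : Summable g)
    (hg2 : Summable (fun x => g x ^ 2)) (v : ℤ × ℤ) :
    ∑ y ∈ nb v, (max 0 (2 * Nb g y - ∑' x, g x)) ^ 2 ≤ 4 * ∑' x, g x ^ 2 := by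
  have h1 : ∑ x ∈ ns v, g x ≤ ∑' x, g x := hg.sum_le_tsum _ (fun x _ => hg0 x)
  have h2 : ∑ x ∈ ns v, g x ^ 2 ≤ ∑' x, g x ^ 2 := hg2.sum_le_tsum _ (fun x _ => sq_nonneg _)
  rw [sum_ns] at h1
  rw [sum_ns (fun x => g x ^ 2)] at h2
  have h3 := nine_site (hg0 (v.1, v.2)) (hg0 (v.1 + 1, v.2 + 1)) (hg0 (v.1 + 1, v.2 - 1))
    (hg0 (v.1 - 1, v.2 - 1)) (hg0 (v.1 - 1, v.2 + 1)) (hg0 (v.1 + 2, v.2)) (hg0 (v.1, v.2 + 2))
    (hg0 (v.1 - 2, v.2)) (hg0 (v.1, v.2 - 2)) h1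
  rw [sum_nb (fun y => (max 0 (2 * Nb g y - ∑' x, g x)) ^ 2)]
  unfold Nb
  simp only [add_sub_cancel_right, sub_add_cancel]
  have e1 : v.1 + 1 + 1 = v.1 + 2 := by ring
  have e2 : v.2 + 1 + 1 = v.2 + 2 := by ring
  have e3 : v.1 - 1 - 1 = v.1 - 2 := by ring
  have e4 : v.2 - 1 - 1 = v.2 - 2 := by ring
  rw [e1, e2, e3, e4]
  refine le_trans (le_of_eq ?_) (h3.trans (by linarith))
  congr 1
  · congr 1
    · congr 1
      · congr 2
        ring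
      · congr 2
        ring
    · congr 2
      ring
  · congr 2
    ring

/-- The main bound -/
theorem main_bound {g h : ℤ × ℤ → ℝ} (hg0 : ∀ x, 0 ≤ g x) (hh0 : ∀ x, 0 ≤ h x)
    (hg : Summable g) (hh : Summable h) (hhe : ∀ x : ℤ × ℤ, (x.1 + x.2) % 2 = 0 → h x = 0) :
    ∑' y, (2 * (h y * Nb g y) - h y ^ 2 - g y ^ 2) ≤ (∑' x, g x) * (∑' x, h x) := by
  set G := ∑' x, g x with hG
  set H := ∑' x, h x with hH
  have hgle : ∀ x, g x ≤ G := fun x => hg.le_tsum x (fun y _ => hg0 y)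
  have hhle : ∀ x, h x ≤ H := fun x => hh.le_tsum x (fun y _ => hh0 y)
  have hg2 : Summable (fun x => g x ^ 2) := by
    refine Summable.of_nonneg_of_le (fun x => sq_nonneg _) (fun x => ?_) (hg.mul_left G)
    nlinarith [hgle x, hg0 x]
  have hh2 : Summable (fun x => h x ^ 2) := by
    refine Summable.of_nonneg_of_le (fun x => sq_nonneg _) (fun x => ?_) (hh.mul_left H)
    nlinarith [hhle x, hh0 x]
  have hhN : Summable (fun x => h x * Nb g x) := by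
    refine Summable.of_nonneg_of_le (fun x => mul_nonneg (hh0 x) (Nb_nonneg hg0 x)) (fun x => ?_)
      (hh.mul_right G)
    exact mul_le_mul_of_nonneg_left (Nb_le hg0 hg x) (hh0 x)
  obtain ⟨v, hv⟩ := cover hg0 hg
  let A : ℤ × ℤ → ℝ := fun y => if y ∈ nb v then (max 0 (2 * Nb g y - G)) ^ 2 else 0
  have hAsum : HasSum A (∑ y ∈ nb v, (max 0 (2 * Nb g y - G)) ^ 2) := by
    have h1 : HasSum A (∑ y ∈ nb v, A y) := hasSum_sum_of_ne_finset_zero (by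
      intro b hb
      simp only [A]
      rw [if_neg hb])
    have h2 : ∑ y ∈ nb v, A y = ∑ y ∈ nb v, (max 0 (2 * Nb g y - G)) ^ 2 := by
      apply sum_congr rfl
      intro y hy
      simp only [A]
      rw [if_pos hy]
    rwa [h2] at h1
  have hpt : ∀ y, 2 * (h y * Nb g y) - h y ^ 2 - g y ^ 2 ≤ h y * G + 1 / 4 * A y - g y ^ 2 := by
    intro y
    by_cases hy : y ∈ nb v
    · simp only [A]
      rw [if_pos hy]
      rcases le_total (2 * Nb g y - G) 0 with h0 | h0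
      · have h1 := mul_nonneg (hh0 y) (sub_nonneg.2 h0)
        have h2 := sq_nonneg (max 0 (2 * Nb g y - G))
        nlinarith [sq_nonneg (h y)]
      · rw [max_eq_right h0]
        nlinarith [sq_nonneg (h y - (2 * Nb g y - G) / 2)]
    · simp only [A]
      rw [if_neg hy]
      rcases Int.emod_two_eq_zero_or_one (y.1 + y.2) with hp | hp
      · rw [hhe y hp]
        simp
      · have h0 : 2 * Nb g y - G ≤ 0 := by
          by_contra hc
          exact hy (hv y hp (not_le.1 hc))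
        have h1 := mul_nonneg (hh0 y) (sub_nonneg.2 h0)
        nlinarith [sq_nonneg (h y)]
  have hS1 : Summable (fun y => 2 * (h y * Nb g y) - h y ^ 2 - g y ^ 2) :=
    ((hhN.mul_left 2).sub hh2).sub hg2
  have hS2 : Summable (fun y => h y * G + 1 / 4 * A y - g y ^ 2) :=
    ((hh.mul_right G).add (hAsum.summable.mul_left (1 / 4))).sub hg2
  have h3 := hS1.tsum_le_tsum hpt hS2
  have h4 : ∑' y, (h y * G + 1 / 4 * A y - g y ^ 2) =
      H * G + 1 / 4 * (∑ y ∈ nb v, (max 0 (2 * Nb g y - G)) ^ 2) - ∑' y, g y ^ 2 := by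
    rw [((hh.mul_right G).add (hAsum.summable.mul_left (1 / 4))).tsum_sub hg2,
      (hh.mul_right G).tsum_add (hAsum.summable.mul_left (1 / 4)), tsum_mul_right,
      tsum_mul_left, hAsum.tsum_eq]
  rw [h4] at h3
  have h5 := local_bound hg0 hg hg2 v
  rw [← hG] at h5
  linarith

end Pool.Agent.R957.MaxU
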