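import Pool.Agent.R957.MaxU.Defs
import Pool.Agent.R957.MaxU.Upper

namespace Pool.Agent.R957.MaxU

open Finset

theorem nbr_iff (x y : Fin 2 → ℤ) : Nbr x y ↔
    (y 0 = x 0 + 1 ∧ y 1 = x 1) ∨ (y 0 = x 0 ∧ y 1 = x 1 + 1) ∨ (y 0 = x 0 - 1 ∧ y 1 = x 1) ∨
      (y 0 = x 0 ∧ y 1 = x 1 - 1) := by
  unfold Nbr
  rw [Fin.sum_univ_two]
  constructor
  · intro h
    obtain ⟨a, ha⟩ : ∃ a, a = x 0 - y 0 := ⟨_, rfl⟩
    obtain ⟨b, hb⟩ : ∃ b, b = x 1 - y 1 := ⟨_, rfl⟩
    rw [← ha, ← hb] at h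
    have ha1 : a ≤ 1 := by nlinarith [sq_nonneg b]
    have ha2 : -1 ≤ a := by nlinarith [sq_nonneg b]
    have hb1 : b ≤ 1 := by nlinarith [sq_nonneg a]
    have hb2 : -1 ≤ b := by nlinarith [sq_nonneg a]
    interval_cases a <;> interval_cases b <;> simp at h <;> omega
  · rintro (⟨h1, h2⟩ | ⟨h1, h2⟩ | ⟨h1, h2⟩ | ⟨h1, h2⟩) <;> rw [h1, h2] <;> ring

/-- `Z^2` as pairs -/
def pr (p : ℤ × ℤ) : Fin 2 → ℤ := ![p.1, p.2]

/-- the equivalence -/
def prE : ℤ × ℤ ≃ (Fin 2 → ℤ) where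
  toFun := pr
  invFun x := (x 0, x 1)
  left_inv p := rfl
  right_inv x := by
    funext i
    fin_cases i <;> rfl

theorem inner (f : (Fin 2 → ℤ) → ℝ) (x : ℤ × ℤ) :
    ∑' y, f (pr x) * F 2 1 4 (pr x) y * f y =
      f (pr x) * (Nb (fun p => f (pr p)) x - f (pr x)) := by
  rw [← prE.tsum_eq]
  have h1 : ∀ y ∉ insert x (nb x), f (pr x) * F 2 1 4 (pr x) (prE y) * f (prE y) = 0 := by
    intro y hy
    have : F 2 1 4 (pr x) (prE y) = 0 := by
      unfold F
      rw [if_neg, if_neg]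
      · rw [nbr_iff]
        unfold nb at hy
        simp only [mem_insert, mem_singleton, Prod.ext_iff] at hy
        simp only [pr, prE, Equiv.coe_fn_mk, Matrix.cons_val_zero, Matrix.cons_val_one]
        omega
      · intro he
        apply hy
        have : x = y := prE.injective he
        rw [this]
        exact mem_insert_self _ _
    rw [this]
    ring
  rw [tsum_eq_sum h1, sum_insert]
  · have h2 : ∀ y ∈ nb x, f (pr x) * F 2 1 4 (pr x) (prE y) * f (prE y) =
        f (pr x) * f (pr y) := by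
      intro y hy
      have : F 2 1 4 (pr x) (prE y) = 1 := by
        unfold F
        rw [if_neg, if_pos]
        · norm_num
        · rw [nbr_iff]
          unfold nb at hy
          simp only [mem_insert, mem_singleton, Prod.ext_iff] at hy
          simp only [pr, prE, Equiv.coe_fn_mk, Matrix.cons_val_zero, Matrix.cons_val_one]
          omega
        · intro he
          have : x = y := prE.injective he
          rw [this] at hy
          unfold nb at hy
          simp only [mem_insert, mem_singleton, Prod.ext_iff] at hy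
          omega
      rw [this]
      ring_nf
      rfl
    rw [sum_congr rfl h2, ← mul_sum, sum_nb (fun p => f (pr p))]
    have : F 2 1 4 (pr x) (prE x) = -1 := by
      unfold F
      exact if_pos rfl
    rw [this]
    have e : f (prE x) = f (pr x) := rfl
    rw [e]
    ring
  · unfold nb
    simp only [mem_insert, mem_singleton, Prod.ext_iff]
    omega

theorem energy_eq (f : (Fin 2 → ℤ) → ℝ) :
    energy 1 4 f = ∑' x : ℤ × ℤ, f (pr x) * (Nb (fun p => f (pr p)) x - f (pr x)) := by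
  unfold energy
  rw [← prE.tsum_eq]
  exact tsum_congr (fun x => inner f x)

theorem tsum_symm {g h : ℤ × ℤ → ℝ} (hg0 : ∀ x, 0 ≤ g x) (hh0 : ∀ x, 0 ≤ h x)
    (hg : Summable g) (hh : Summable h) :
    ∑' x, g x * Nb h x = ∑' x, h x * Nb g x := by
  have hgle : ∀ x, g x ≤ ∑' x, g x := fun x => hg.le_tsum x (fun y _ => hg0 y)
  have hhle : ∀ x, h x ≤ ∑' x, h x := fun x => hh.le_tsum x (fun y _ => hh0 y)
  have key : ∀ (g h : ℤ × ℤ → ℝ) (_ : ∀ x, 0 ≤ g x) (_ : ∀ x, 0 ≤ h x) (_ : Summable g)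
      (_ : Summable h) (φ : ℤ × ℤ → ℤ × ℤ), Summable (fun x => g x * h (φ x)) := by
    intro g h hg0 hh0 hg hh φ
    refine Summable.of_nonneg_of_le (fun x => mul_nonneg (hg0 x) (hh0 _)) (fun x => ?_)
      (hg.mul_right (∑' x, h x))
    exact mul_le_mul_of_nonneg_left (hh.le_tsum _ (fun y _ => hh0 y)) (hg0 x)
  have expand : ∀ (g h : ℤ × ℤ → ℝ) (_ : ∀ x, 0 ≤ g x) (_ : ∀ x, 0 ≤ h x) (_ : Summable g)
      (_ : Summable h), ∑' x, g x * Nb h x = ∑' x : ℤ × ℤ, g x * h (x.1 + 1, x.2) +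
        ∑' x : ℤ × ℤ, g x * h (x.1, x.2 + 1) + ∑' x : ℤ × ℤ, g x * h (x.1 - 1, x.2) +
        ∑' x : ℤ × ℤ, g x * h (x.1, x.2 - 1) := by
    intro g h hg0 hh0 hg hh
    have k1 := key g h hg0 hh0 hg hh (fun x => (x.1 + 1, x.2))
    have k2 := key g h hg0 hh0 hg hh (fun x => (x.1, x.2 + 1))
    have k3 := key g h hg0 hh0 hg hh (fun x => (x.1 - 1, x.2))
    have k4 := key g h hg0 hh0 hg hh (fun x => (x.1, x.2 - 1))
    rw [← k1.tsum_add k2, ← (k1.add k2).tsum_add k3, ← ((k1.add k2).add k3).tsum_add k4]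
    apply tsum_congr
    intro x
    unfold Nb
    ring
  rw [expand g h hg0 hh0 hg hh, expand h g hh0 hg0 hh hg]
  let t1 : ℤ × ℤ ≃ ℤ × ℤ :=
    { toFun := fun x => (x.1 + 1, x.2), invFun := fun x => (x.1 - 1, x.2),
      left_inv := fun x => by ext <;> simp, right_inv := fun x => by ext <;> simp }
  let t2 : ℤ × ℤ ≃ ℤ × ℤ :=
    { toFun := fun x => (x.1, x.2 + 1), invFun := fun x => (x.1, x.2 - 1),
      left_inv := fun x => by ext <;> simp, right_inv := fun x => by ext <;> simp }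
  have e1 : ∑' x : ℤ × ℤ, g x * h (x.1 + 1, x.2) = ∑' x : ℤ × ℤ, h x * g (x.1 - 1, x.2) := by
    rw [← t1.tsum_eq (fun x : ℤ × ℤ => h x * g (x.1 - 1, x.2))]
    apply tsum_congr
    intro x
    simp only [t1, Equiv.coe_fn_mk, add_sub_cancel_right]
    ring
  have e2 : ∑' x : ℤ × ℤ, g x * h (x.1, x.2 + 1) = ∑' x : ℤ × ℤ, h x * g (x.1, x.2 - 1) := by
    rw [← t2.tsum_eq (fun x : ℤ × ℤ => h x * g (x.1, x.2 - 1))]
    apply tsum_congr
    intro x
    simp only [t2, Equiv.coe_fn_mk, add_sub_cancel_right]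
    ring
  have e3 : ∑' x : ℤ × ℤ, h x * g (x.1 + 1, x.2) = ∑' x : ℤ × ℤ, g x * h (x.1 - 1, x.2) := by
    rw [← t1.tsum_eq (fun x : ℤ × ℤ => g x * h (x.1 - 1, x.2))]
    apply tsum_congr
    intro x
    simp only [t1, Equiv.coe_fn_mk, add_sub_cancel_right]
    ring
  have e4 : ∑' x : ℤ × ℤ, h x * g (x.1, x.2 + 1) = ∑' x : ℤ × ℤ, g x * h (x.1, x.2 - 1) := by
    rw [← t2.tsum_eq (fun x : ℤ × ℤ => g x * h (x.1, x.2 - 1))]
    apply tsum_congr
    intro x
    simp only [t2, Equiv.coe_fn_mk, add_sub_cancel_right]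
    ring
  rw [e1, e2, e3, e4]
  ring

/-- even part -/
noncomputable def ev (f : ℤ × ℤ → ℝ) (x : ℤ × ℤ) : ℝ := if (x.1 + x.2) % 2 = 0 then f x else 0

/-- odd part -/
noncomputable def od (f : ℤ × ℤ → ℝ) (x : ℤ × ℤ) : ℝ := if (x.1 + x.2) % 2 = 0 then 0 else f x

theorem split_pt (f : ℤ × ℤ → ℝ) (x : ℤ × ℤ) :
    f x * (Nb f x - f x) = ev f x * Nb (od f) x + (od f x * Nb (ev f) x - od f x ^ 2 - ev f x ^ 2)
      := by
  unfold Nb
  rcases Int.emod_two_eq_zero_or_one (x.1 + x.2) with hp | hp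
  · have a1 : ev f x = f x := if_pos hp
    have a2 : od f x = 0 := if_pos hp
    have b1 : od f (x.1 + 1, x.2) = f (x.1 + 1, x.2) := if_neg (by simp only; omega)
    have b2 : od f (x.1, x.2 + 1) = f (x.1, x.2 + 1) := if_neg (by simp only; omega)
    have b3 : od f (x.1 - 1, x.2) = f (x.1 - 1, x.2) := if_neg (by simp only; omega)
    have b4 : od f (x.1, x.2 - 1) = f (x.1, x.2 - 1) := if_neg (by simp only; omega)
    rw [a1, a2, b1, b2, b3, b4]
    ring
  · have a1 : ev f x = 0 := if_neg (by omega)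
    have a2 : od f x = f x := if_neg (by omega)
    have b1 : ev f (x.1 + 1, x.2) = f (x.1 + 1, x.2) := if_pos (by simp only; omega)
    have b2 : ev f (x.1, x.2 + 1) = f (x.1, x.2 + 1) := if_pos (by simp only; omega)
    have b3 : ev f (x.1 - 1, x.2) = f (x.1 - 1, x.2) := if_pos (by simp only; omega)
    have b4 : ev f (x.1, x.2 - 1) = f (x.1, x.2 - 1) := if_pos (by simp only; omega)
    rw [a1, a2, b1, b2, b3, b4]
    ring

theorem upper {f : ℤ × ℤ → ℝ} (hf0 : ∀ x, 0 ≤ f x) (hf : Summable f) :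
    ∑' x, f x * (Nb f x - f x) ≤ (∑' x, ev f x) * (∑' x, od f x) := by
  have hg0 : ∀ x, 0 ≤ ev f x := fun x => by
    unfold ev
    split_ifs
    · exact hf0 x
    · exact le_rfl
  have hh0 : ∀ x, 0 ≤ od f x := fun x => by
    unfold od
    split_ifs
    · exact le_rfl
    · exact hf0 x
  have hgl : ∀ x, ev f x ≤ f x := fun x => by
    unfold ev
    split_ifs
    · exact le_rfl
    · exact hf0 x
  have hhl : ∀ x, od f x ≤ f x := fun x => by
    unfold od
    split_ifs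
    · exact hf0 x
    · exact le_rfl
  have hg : Summable (ev f) := Summable.of_nonneg_of_le hg0 hgl hf
  have hh : Summable (od f) := Summable.of_nonneg_of_le hh0 hhl hf
  have hhe : ∀ x : ℤ × ℤ, (x.1 + x.2) % 2 = 0 → od f x = 0 := fun x hx => if_pos hx
  have hb := main_bound hg0 hh0 hg hh hhe
  have hg2 : Summable (fun x => ev f x ^ 2) := by
    refine Summable.of_nonneg_of_le (fun x => sq_nonneg _) (fun x => ?_)
      (hg.mul_left (∑' x, ev f x))
    nlinarith [hg.le_tsum x (fun y _ => hg0 y), hg0 x]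
  have hh2 : Summable (fun x => od f x ^ 2) := by
    refine Summable.of_nonneg_of_le (fun x => sq_nonneg _) (fun x => ?_)
      (hh.mul_left (∑' x, od f x))
    nlinarith [hh.le_tsum x (fun y _ => hh0 y), hh0 x]
  have hhN : Summable (fun x => od f x * Nb (ev f) x) := by
    refine Summable.of_nonneg_of_le (fun x => mul_nonneg (hh0 x) (Nb_nonneg hg0 x)) (fun x => ?_)
      (hh.mul_right (∑' x, ev f x))
    exact mul_le_mul_of_nonneg_left (Nb_le hg0 hg x) (hh0 x)
  have hgN : Summable (fun x => ev f x * Nb (od f) x) := by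
    refine Summable.of_nonneg_of_le (fun x => mul_nonneg (hg0 x) (Nb_nonneg hh0 x)) (fun x => ?_)
      (hg.mul_right (∑' x, od f x))
    exact mul_le_mul_of_nonneg_left (Nb_le hh0 hh x) (hg0 x)
  have e1 : ∑' x, f x * (Nb f x - f x) = ∑' x, ev f x * Nb (od f) x +
      ∑' x, (od f x * Nb (ev f) x - od f x ^ 2 - ev f x ^ 2) := by
    rw [← hgN.tsum_add ((hhN.sub hh2).sub hg2)]
    exact tsum_congr (fun x => split_pt f x)
  rw [e1, tsum_symm hg0 hh0 hg hh, ← hhN.tsum_add ((hhN.sub hh2).sub hg2)]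
  refine le_trans (le_of_eq ?_) hb
  apply tsum_congr
  intro x
  ring

end Pool.Agent.R957.MaxU
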