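import Pool.Agent.R957.MaxU.Energy

namespace Pool.Agent.R957.MaxU

open Finset Filter Topology

open Classical in
theorem localTime_succ {d : ℕ} (n : ℕ) (w : ℕ → Fin d → ℤ) (x : Fin d → ℤ) :
    localTime (n + 1) w x = localTime n w x + (if w (n + 1) = x then 1 else 0) := by
  unfold localTime
  rw [range_add_one (n := n + 1), filter_insert]
  split_ifs with h
  · rw [card_insert_of_notMem (by simp)]
    push_cast
    ring
  · simp

open Classical in
theorem corrected_succ {d : ℕ} (n : ℕ) (w : ℕ → Fin d → ℤ) (x : Fin d → ℤ) :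
    corrected (n + 1) w x = corrected n w x + ((if w n = x then 1 / 2 else 0) +
      (if w (n + 1) = x then 1 / 2 else 0)) := by
  unfold corrected
  rw [localTime_succ]
  split_ifs <;> ring

theorem corrected_zero {d : ℕ} (w : ℕ → Fin d → ℤ) (x : Fin d → ℤ) :
    corrected 0 w x = 0 := by
  classical
  unfold corrected localTime
  by_cases h : w 0 = x
  · rw [if_pos h, filter_true_of_mem (by intro i hi; simp at hi; rw [hi]; exact h)]
    simp
    norm_num
  · rw [if_neg h, filter_false_of_mem (by intro i hi; simp at hi; rw [hi]; exact h)]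
    simp

theorem par {n : ℕ} {w : ℕ → Fin 2 → ℤ} (hw : IsPath n w) (b : ℤ) (T : Finset (ℤ × ℤ))
    (hT : ∀ x ∈ T, (x.1 + x.2) % 2 = b) : ∑ x ∈ T, corrected n w (pr x) ≤ (n : ℝ) / 2 := by
  classical
  induction n with
  | zero => simp [corrected_zero]
  | succ n ih =>
    have ih' := ih (fun i hi => hw i (by omega))
    have h1 : ∀ i : ℕ, ∑ x ∈ T, (if w i = pr x then (1 / 2 : ℝ) else 0) =
        if prE.symm (w i) ∈ T then 1 / 2 else 0 := by
      intro i
      rw [← Finset.sum_ite_eq T (prE.symm (w i)) (fun _ => (1 / 2 : ℝ))]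
      apply sum_congr rfl
      intro x _
      have : w i = pr x ↔ prE.symm (w i) = x := by
        rw [Equiv.symm_apply_eq]
        rfl
      by_cases hx : w i = pr x
      · rw [if_pos hx, if_pos (this.1 hx)]
      · rw [if_neg hx, if_neg (fun h => hx (this.2 h))]
    have h2 : ∑ x ∈ T, corrected (n + 1) w (pr x) = ∑ x ∈ T, corrected n w (pr x) +
        ((if prE.symm (w n) ∈ T then 1 / 2 else 0) +
          (if prE.symm (w (n + 1)) ∈ T then 1 / 2 else 0)) := by
      rw [← h1, ← h1, ← sum_add_distrib, ← sum_add_distrib]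
      apply sum_congr rfl
      intro x _
      rw [corrected_succ]
    have h3 : ¬ (prE.symm (w n) ∈ T ∧ prE.symm (w (n + 1)) ∈ T) := by
      rintro ⟨a1, a2⟩
      have b1 := hT _ a1
      have b2 := hT _ a2
      have b3 := (nbr_iff _ _).1 (hw n (by omega))
      change (w n 0 + w n 1) % 2 = b at b1
      change (w (n + 1) 0 + w (n + 1) 1) % 2 = b at b2
      omega
    have h4 : (if prE.symm (w n) ∈ T then (1 / 2 : ℝ) else 0) +
          (if prE.symm (w (n + 1)) ∈ T then 1 / 2 else 0) ≤ 1 / 2 := by
      by_cases a1 : prE.symm (w n) ∈ T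
      · by_cases a2 : prE.symm (w (n + 1)) ∈ T
        · exact absurd ⟨a1, a2⟩ h3
        · rw [if_pos a1, if_neg a2]
          norm_num
      · rw [if_neg a1]
        split_ifs <;> norm_num
    rw [h2]
    push_cast
    linarith

theorem half {f : (Fin 2 → ℤ) → ℝ} (hf : InF f) (b : ℤ) (T : Finset (ℤ × ℤ))
    (hT : ∀ x ∈ T, (x.1 + x.2) % 2 = b) : ∑ x ∈ T, f (pr x) ≤ 1 / 2 := by
  obtain ⟨_, _, n, w, _, hw, hl⟩ := hf
  have h1 : Tendsto (fun k => ∑ x ∈ T, corrected (n k) (w k) (pr x) / (n k : ℝ)) atTop
      (𝓝 (∑ x ∈ T, f (pr x))) := tendsto_finsetSum _ (fun x _ => hl (pr x))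
  refine le_of_tendsto' h1 (fun k => ?_)
  rw [← sum_div]
  rcases Nat.eq_zero_or_pos (n k) with h0 | h0
  · rw [h0]
    norm_num
  · rw [div_le_iff₀ (by exact_mod_cast h0)]
    have := par (hw k) b T hT
    linarith

theorem ev_half {f : (Fin 2 → ℤ) → ℝ} (hf : InF f) : ∑' x, ev (fun p => f (pr p)) x ≤ 1 / 2 := by
  classical
  have h0 : ∀ x, 0 ≤ ev (fun p => f (pr p)) x := fun x => by
    unfold ev
    split_ifs
    · exact hf.1 _
    · exact le_rfl
  refine Real.tsum_le_of_sum_le h0 (fun u => ?_)
  have : ∑ x ∈ u, ev (fun p => f (pr p)) x =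
      ∑ x ∈ u.filter (fun x : ℤ × ℤ => (x.1 + x.2) % 2 = 0), f (pr x) := by
    rw [sum_filter]
    rfl
  rw [this]
  exact half hf 0 _ (fun x hx => (mem_filter.1 hx).2)

theorem od_half {f : (Fin 2 → ℤ) → ℝ} (hf : InF f) : ∑' x, od (fun p => f (pr p)) x ≤ 1 / 2 := by
  classical
  have h0 : ∀ x, 0 ≤ od (fun p => f (pr p)) x := fun x => by
    unfold od
    split_ifs
    · exact le_rfl
    · exact hf.1 _
  refine Real.tsum_le_of_sum_le h0 (fun u => ?_)
  have : ∑ x ∈ u, od (fun p => f (pr p)) x =
      ∑ x ∈ u.filter (fun x : ℤ × ℤ => ¬ (x.1 + x.2) % 2 = 0), f (pr x) := by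
    rw [sum_filter]
    apply sum_congr rfl
    intro x _
    unfold od
    by_cases h : (x.1 + x.2) % 2 = 0
    · rw [if_pos h, if_neg (not_not.2 h)]
    · rw [if_neg h, if_pos h]
  rw [this]
  refine half hf 1 _ (fun x hx => ?_)
  have := (mem_filter.1 hx).2
  omega

/-- The upper bound. -/
theorem energy_le {f : (Fin 2 → ℤ) → ℝ} (hf : InF f) : energy 1 4 f ≤ 1 / 4 := by
  rw [energy_eq]
  have hs : Summable (fun p : ℤ × ℤ => f (pr p)) :=
    (prE.summable_iff (f := f)).2 hf.2.1.summable
  have h1 := upper (f := fun p => f (pr p)) (fun x => hf.1 _) hs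
  have h2 := ev_half hf
  have h3 := od_half hf
  have h4 : 0 ≤ ∑' x, ev (fun p => f (pr p)) x := tsum_nonneg (fun x => by
    unfold ev
    split_ifs
    · exact hf.1 _
    · exact le_rfl)
  have h5 : 0 ≤ ∑' x, od (fun p => f (pr p)) x := tsum_nonneg (fun x => by
    unfold od
    split_ifs
    · exact le_rfl
    · exact hf.1 _)
  nlinarith

open Classical in
/-- occupation measure of a cycle of length `m` -/
noncomputable def cyc {d : ℕ} (m : ℕ) (c : ℕ → Fin d → ℤ) (x : Fin d → ℤ) : ℝ :=
  ∑ j ∈ range m, if c j = x then (1 / (m : ℝ)) else 0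

theorem cyc_inF {d : ℕ} {m : ℕ} (hm : 0 < m) {c : ℕ → Fin d → ℤ} (hper : ∀ j, c (j + m) = c j)
    (hstep : ∀ j, Nbr (c (j + 1)) (c j)) : InF (cyc m c) := by
  classical
  have hm' : (m : ℝ) ≠ 0 := by exact_mod_cast hm.ne'
  refine ⟨?_, ?_, fun k => k * m, fun _ => c, ?_, fun k i _ => hstep i, ?_⟩
  · intro x
    unfold cyc
    refine sum_nonneg (fun j _ => ?_)
    split_ifs
    · positivity
    · exact le_rfl
  · have h1 : ∀ j ∈ range m, HasSum (fun x => if c j = x then (1 / (m : ℝ)) else 0) (1 / (m : ℝ)) := by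
      intro j _
      have := hasSum_single (f := fun x => if c j = x then (1 / (m : ℝ)) else 0) (c j) (by
        intro b hb
        exact if_neg (fun h => hb h.symm))
      simpa using this
    have h2 := hasSum_sum h1
    have h3 : ∑ j ∈ range m, (1 / (m : ℝ)) = 1 := by
      rw [sum_const, card_range, nsmul_eq_mul]
      field_simp
    rw [h3] at h2
    exact h2
  · exact tendsto_id.atTop_mul_const' hm
  · intro x
    have hperk : ∀ k j, c (k * m + j) = c j := by
      intro k
      induction k with
      | zero => intro j; simp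
      | succ k ih =>
        intro j
        have : (k + 1) * m + j = (k * m + j) + m := by ring
        rw [this, hper, ih]
    have hloc : ∀ k, localTime (k * m) c x = k * (m * cyc m c x) + if c 0 = x then 1 else 0 := by
      intro k
      have e1 : localTime (k * m) c x = ∑ i ∈ range (k * m + 1), if c i = x then (1 : ℝ) else 0 := by
        unfold localTime
        rw [card_filter]
        push_cast
        rfl
      rw [e1, sum_range_succ]
      have e2 : c (k * m) = c 0 := by
        have := hperk k 0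
        simpa using this
      rw [e2]
      congr 1
      have e3 : (m : ℝ) * cyc m c x = ∑ j ∈ range m, if c j = x then (1 : ℝ) else 0 := by
        unfold cyc
        rw [mul_sum]
        apply sum_congr rfl
        intro j _
        split_ifs
        · field_simp
        · simp
      rw [e3]
      clear e1 e2
      induction k with
      | zero => simp
      | succ k ih =>
        rw [add_mul, one_mul, sum_range_add, ih]
        simp only [hperk]
        push_cast
        ring
    have hev : ∀ᶠ k : ℕ in atTop, corrected (k * m) c x / ((k * m : ℕ) : ℝ) = cyc m c x := by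
      filter_upwards [eventually_gt_atTop 0] with k hk
      have hk' : (k : ℝ) ≠ 0 := by exact_mod_cast hk.ne'
      have e2 : c (k * m) = c 0 := by
        have := hperk k 0
        simpa using this
      unfold corrected
      rw [hloc, e2]
      push_cast
      split_ifs
      · field_simp
        ring
      · field_simp
        ring
    exact (tendsto_congr' hev).2 tendsto_const_nhds

theorem cyc_energy {d : ℕ} (β γ : ℝ) (m : ℕ) (c : ℕ → Fin d → ℤ) : energy β γ (cyc m c) =
    (∑ i ∈ range m, ∑ j ∈ range m, F d β γ (c i) (c j)) * (1 / (m : ℝ)) ^ 2 := by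
  classical
  unfold energy
  have h1 : ∀ x, ∑' y, cyc m c x * F d β γ x y * cyc m c y =
      cyc m c x * (∑ j ∈ range m, F d β γ x (c j) * (1 / (m : ℝ))) := by
    intro x
    have h2 : ∀ j ∈ range m, HasSum (fun y => cyc m c x * F d β γ x y *
        (if c j = y then (1 / (m : ℝ)) else 0)) (cyc m c x * (F d β γ x (c j) * (1 / (m : ℝ)))) := by
      intro j _
      have := hasSum_single (f := fun y => cyc m c x * F d β γ x y *
        (if c j = y then (1 / (m : ℝ)) else 0)) (c j) (by
        intro b hb
        rw [if_neg (fun h => hb h.symm), mul_zero])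
      simpa [mul_assoc] using this
    have h3 := (hasSum_sum h2).tsum_eq
    rw [mul_sum, ← h3]
    apply tsum_congr
    intro y
    rw [← mul_sum]
    rfl
  simp_rw [h1]
  have h2 : ∀ i ∈ range m, HasSum (fun x => (if c i = x then (1 / (m : ℝ)) else 0) *
      (∑ j ∈ range m, F d β γ x (c j) * (1 / (m : ℝ))))
      ((1 / (m : ℝ)) * (∑ j ∈ range m, F d β γ (c i) (c j) * (1 / (m : ℝ)))) := by
    intro i _
    have := hasSum_single (f := fun x => (if c i = x then (1 / (m : ℝ)) else 0) *
      (∑ j ∈ range m, F d β γ x (c j) * (1 / (m : ℝ)))) (c i) (by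
      intro b hb
      rw [if_neg (fun h => hb h.symm), zero_mul])
    simpa using this
  have h3 := (hasSum_sum h2).tsum_eq
  have h4 : ∑' x, cyc m c x * (∑ j ∈ range m, F d β γ x (c j) * (1 / (m : ℝ))) =
      ∑ i ∈ range m, (1 / (m : ℝ)) * (∑ j ∈ range m, F d β γ (c i) (c j) * (1 / (m : ℝ))) := by
    rw [← h3]
    apply tsum_congr
    intro x
    exact Finset.sum_mul _ _ _
  rw [h4, sum_mul]
  apply sum_congr rfl
  intro i _
  rw [← sum_mul]
  ring

end Pool.Agent.R957.MaxU
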