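import Mathlib

namespace Pool.Agent.R957.MaxU

/-- one active -/
theorem one_act {c n e ne u : ℝ} (hu : 0 ≤ u) (h : u ≤ c + n + e + ne) :
    u ^ 2 ≤ 4 * (c ^ 2 + n ^ 2 + e ^ 2 + ne ^ 2) := by
  have h1 : u ^ 2 ≤ (c + n + e + ne) ^ 2 := pow_le_pow_left₀ hu h 2
  nlinarith [sq_nonneg (c - n), sq_nonneg (c - e), sq_nonneg (c - ne), sq_nonneg (n - e),
    sq_nonneg (n - ne), sq_nonneg (e - ne)]

/-- two adjacent active -/
theorem two_adj {c n e w ne nw u v : ℝ} (hc : 0 ≤ c) (hn : 0 ≤ n) (he : 0 ≤ e) (hw : 0 ≤ w)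
    (hne : 0 ≤ ne) (hnw : 0 ≤ nw) (hu : 0 ≤ u) (hv : 0 ≤ v)
    (h1 : u ≤ c + n + (e - w) + ne - nw) (h2 : v ≤ c + n - (e - w) - ne + nw) :
    u ^ 2 + v ^ 2 ≤ 4 * (c ^ 2 + n ^ 2 + e ^ 2 + w ^ 2 + ne ^ 2 + nw ^ 2) := by
  have h3 := pow_le_pow_left₀ hu h1 2
  have h4 := pow_le_pow_left₀ hv h2 2
  have h5 : (c + n + (e - w) + ne - nw) ^ 2 + (c + n - (e - w) - ne + nw) ^ 2 =
      2 * (c + n) ^ 2 + 2 * ((e + ne) - (w + nw)) ^ 2 := by ring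
  have h6 : ((e + ne) - (w + nw)) ^ 2 ≤ (e + ne) ^ 2 + (w + nw) ^ 2 := by
    nlinarith [mul_nonneg (add_nonneg he hne) (add_nonneg hw hnw)]
  nlinarith [sq_nonneg (c - n), sq_nonneg (e - ne), sq_nonneg (w - nw)]

/-- two opposite active -/
theorem two_opp {c t u v : ℝ} (hu : 0 ≤ u) (hv : 0 ≤ v)
    (h1 : u ≤ c + t) (h2 : v ≤ c - t) : u ^ 2 + v ^ 2 ≤ 4 * c ^ 2 := by
  have h3 := pow_le_pow_left₀ hu h1 2
  have h4 := pow_le_pow_left₀ hv h2 2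
  have h5 : 0 ≤ c + t := hu.trans h1
  have h6 : 0 ≤ c - t := hv.trans h2
  nlinarith [mul_nonneg h5 h6]

/-- three active: `u` in the middle -/
theorem three {c n e s w ne nw se u v x : ℝ} (hc : 0 ≤ c) (hn : 0 ≤ n) (he : 0 ≤ e) (hs : 0 ≤ s)
    (hw : 0 ≤ w) (hne : 0 ≤ ne) (hnw : 0 ≤ nw) (hse : 0 ≤ se) (hu : 0 ≤ u) (hv : 0 ≤ v)
    (hx : 0 ≤ x) (h1 : u ≤ c + (n - s) + (e - w) + ne - nw - se)
    (h2 : v ≤ c + (n - s) - (e - w) + nw - ne - se)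
    (h3 : x ≤ c - (n - s) + (e - w) + se - ne - nw) :
    u ^ 2 + v ^ 2 + x ^ 2 ≤
      4 * (c ^ 2 + n ^ 2 + e ^ 2 + s ^ 2 + w ^ 2 + ne ^ 2 + nw ^ 2 + se ^ 2) := by
  set a := n - s - se with ha
  set b := e - w - nw with hb
  have h1' : u ≤ c + ne + a + b := by rw [ha, hb]; linarith
  have h2' : v ≤ c - ne + (a - b) := by rw [ha, hb]; linarith
  have h3' : x ≤ c - ne - (a - b) := by rw [ha, hb]; linarith
  have k1 := pow_le_pow_left₀ hu h1' 2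
  have k2 := pow_le_pow_left₀ hv h2' 2
  have k3 := pow_le_pow_left₀ hx h3' 2
  have p2 : 0 ≤ c - ne + (a - b) := hv.trans h2'
  have p3 : 0 ≤ c - ne - (a - b) := hx.trans h3'
  have key : (c + ne + a + b) ^ 2 + (c - ne + (a - b)) ^ 2 + (c - ne - (a - b)) ^ 2 =
      4 * (c ^ 2 + ne ^ 2 + a ^ 2 + b ^ 2) - (c + ne - a - b) ^ 2 := by ring
  have hA : a ^ 2 ≤ n ^ 2 ∨ (a ≤ 0 ∧ a ^ 2 ≤ 2 * (s ^ 2 + se ^ 2)) := by
    rcases le_total 0 a with h | h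
    · left
      exact pow_le_pow_left₀ h (by rw [ha]; linarith) 2
    · right
      refine ⟨h, ?_⟩
      have : (-a) ^ 2 ≤ (s + se) ^ 2 := pow_le_pow_left₀ (by linarith) (by rw [ha]; linarith) 2
      nlinarith [sq_nonneg (s - se)]
  have hB : b ^ 2 ≤ e ^ 2 ∨ (b ≤ 0 ∧ b ^ 2 ≤ 2 * (w ^ 2 + nw ^ 2)) := by
    rcases le_total 0 b with h | h
    · left
      exact pow_le_pow_left₀ h (by rw [hb]; linarith) 2
    · right
      refine ⟨h, ?_⟩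
      have : (-b) ^ 2 ≤ (w + nw) ^ 2 := pow_le_pow_left₀ (by linarith) (by rw [hb]; linarith) 2
      nlinarith [sq_nonneg (w - nw)]
  have q1 := sq_nonneg s
  have q2 := sq_nonneg se
  have q3 := sq_nonneg w
  have q4 := sq_nonneg nw
  have q5 := sq_nonneg n
  have q6 := sq_nonneg e
  have q7 := sq_nonneg (c + ne - a - b)
  rcases hA with hA | ⟨ha0, hA⟩
  · rcases hB with hB | ⟨hb0, hB⟩
    · nlinarith
    · -- b ≤ 0
      have h7 : 2 * (-b) ≤ c + ne - a - b := by linarith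
      have h8 : (2 * (-b)) ^ 2 ≤ (c + ne - a - b) ^ 2 := pow_le_pow_left₀ (by linarith) h7 2
      nlinarith
  · rcases hB with hB | ⟨hb0, hB⟩
    · have h7 : 2 * (-a) ≤ c + ne - a - b := by linarith
      have h8 : (2 * (-a)) ^ 2 ≤ (c + ne - a - b) ^ 2 := pow_le_pow_left₀ (by linarith) h7 2
      nlinarith
    · have h7 : 2 * (-b) ≤ c + ne - a - b := by linarith
      have h8 : (2 * (-b)) ^ 2 ≤ (c + ne - a - b) ^ 2 := pow_le_pow_left₀ (by linarith) h7 2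
      have h9 : 2 * (-a) ≤ c + ne - a - b := by linarith
      have h10 : (2 * (-a)) ^ 2 ≤ (c + ne - a - b) ^ 2 := pow_le_pow_left₀ (by linarith) h9 2
      nlinarith

/-- four active -/
theorem four {c n e s w p q r t u1 u2 u3 u4 : ℝ} (hn : 0 ≤ n) (he : 0 ≤ e) (hs : 0 ≤ s)
    (hw : 0 ≤ w) (hp : 0 ≤ p) (hq : 0 ≤ q) (hr : 0 ≤ r) (ht : 0 ≤ t) (g1 : 0 ≤ u1) (g2 : 0 ≤ u2)
    (g3 : 0 ≤ u3) (g4 : 0 ≤ u4)
    (h1 : u1 ≤ c + (n - s) + (e - w) + p - q - r - t)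
    (h2 : u2 ≤ c + (n - s) - (e - w) + q - p - r - t)
    (h3 : u3 ≤ c - (n - s) - (e - w) + r - p - q - t)
    (h4 : u4 ≤ c - (n - s) + (e - w) + t - p - q - r) :
    u1 ^ 2 + u2 ^ 2 + u3 ^ 2 + u4 ^ 2 ≤
      4 * (c ^ 2 + n ^ 2 + e ^ 2 + s ^ 2 + w ^ 2 + p ^ 2 + q ^ 2 + r ^ 2 + t ^ 2) := by
  have k1 := pow_le_pow_left₀ g1 h1 2
  have k2 := pow_le_pow_left₀ g2 h2 2
  have k3 := pow_le_pow_left₀ g3 h3 2
  have k4 := pow_le_pow_left₀ g4 h4 2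
  have m1 := mul_nonneg hp (g3.trans h3)
  have m2 := mul_nonneg hq (g4.trans h4)
  have m3 := mul_nonneg hr (g1.trans h1)
  have m4 := mul_nonneg ht (g2.trans h2)
  nlinarith [mul_nonneg hn hs, mul_nonneg he hw, sq_nonneg (p - r), sq_nonneg (q - t),
    mul_nonneg hp hq, mul_nonneg hp ht, mul_nonneg hr hq, mul_nonneg hr ht]

end Pool.Agent.R957.MaxU
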