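import Pool.Agent.R957.MaxU.Nine

namespace Pool.Agent.R957.MaxU

private theorem dich (x : ℝ) : (max 0 x = 0) ∨ (0 ≤ max 0 x ∧ max 0 x = x) := by
  rcases le_total x 0 with h | h
  · exact Or.inl (max_eq_left h)
  · exact Or.inr ⟨le_max_left _ _, max_eq_right h⟩

/-- The nine site inequality. -/
theorem nine_site {c n e s w p q r t G : ℝ} (hc : 0 ≤ c) (hn : 0 ≤ n) (he : 0 ≤ e) (hs : 0 ≤ s)
    (hw : 0 ≤ w) (hp : 0 ≤ p) (hq : 0 ≤ q) (hr : 0 ≤ r) (ht : 0 ≤ t)
    (hG : c + n + e + s + w + p + q + r + t ≤ G) :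
    (max 0 (2 * (c + n + e + p) - G)) ^ 2 + (max 0 (2 * (c + n + w + q) - G)) ^ 2 +
      (max 0 (2 * (c + s + w + r) - G)) ^ 2 + (max 0 (2 * (c + s + e + t) - G)) ^ 2 ≤
      4 * (c ^ 2 + n ^ 2 + e ^ 2 + s ^ 2 + w ^ 2 + p ^ 2 + q ^ 2 + r ^ 2 + t ^ 2) := by
  have s1 := sq_nonneg c
  have s2 := sq_nonneg n
  have s3 := sq_nonneg e
  have s4 := sq_nonneg s
  have s5 := sq_nonneg w
  have s6 := sq_nonneg p
  have s7 := sq_nonneg q
  have s8 := sq_nonneg r
  have s9 := sq_nonneg t
  rcases dich (2 * (c + n + e + p) - G) with h1 | ⟨g1, h1⟩ <;>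
  rcases dich (2 * (c + n + w + q) - G) with h2 | ⟨g2, h2⟩ <;>
  rcases dich (2 * (c + s + w + r) - G) with h3 | ⟨g3, h3⟩ <;>
  rcases dich (2 * (c + s + e + t) - G) with h4 | ⟨g4, h4⟩
  -- none
  · rw [h1, h2, h3, h4]; linarith
  -- 4
  · have := one_act (c := c) (n := s) (e := e) (ne := t) g4 (by rw [h4]; linarith)
    rw [h1, h2, h3]; linarith
  -- 3
  · have := one_act (c := c) (n := s) (e := w) (ne := r) g3 (by rw [h3]; linarith)
    rw [h1, h2, h4]; linarith
  -- 3 4
  · have := two_adj (c := c) (n := s) (e := e) (w := w) (ne := t) (nw := r) hc hs he hw ht hr g4 g3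
      (by rw [h4]; linarith) (by rw [h3]; linarith)
    rw [h1, h2]; linarith
  -- 2
  · have := one_act (c := c) (n := n) (e := w) (ne := q) g2 (by rw [h2]; linarith)
    rw [h1, h3, h4]; linarith
  -- 2 4
  · have := two_opp (c := c) (t := (n - s) - (e - w) + q - t) g2 g4
      (by rw [h2]; linarith) (by rw [h4]; linarith)
    rw [h1, h3]; linarith
  -- 2 3
  · have := two_adj (c := c) (n := w) (e := n) (w := s) (ne := q) (nw := r) hc hw hn hs hq hr g2 g3
      (by rw [h2]; linarith) (by rw [h3]; linarith)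
    rw [h1, h4]; linarith
  -- 2 3 4 : middle 3
  · have := three (c := c) (n := w) (e := s) (s := e) (w := n) (ne := r) (nw := q) (se := t)
      hc hw hs he hn hr hq ht g3 g2 g4
      (by rw [h3]; linarith) (by rw [h2]; linarith) (by rw [h4]; linarith)
    rw [h1]; linarith
  -- 1
  · have := one_act (c := c) (n := n) (e := e) (ne := p) g1 (by rw [h1]; linarith)
    rw [h2, h3, h4]; linarith
  -- 1 4
  · have := two_adj (c := c) (n := e) (e := n) (w := s) (ne := p) (nw := t) hc he hn hs hp ht g1 g4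
      (by rw [h1]; linarith) (by rw [h4]; linarith)
    rw [h2, h3]; linarith
  -- 1 3
  · have := two_opp (c := c) (t := (n - s) + (e - w) + p - r) g1 g3
      (by rw [h1]; linarith) (by rw [h3]; linarith)
    rw [h2, h4]; linarith
  -- 1 3 4 : middle 4
  · have := three (c := c) (n := s) (e := e) (s := n) (w := w) (ne := t) (nw := r) (se := p)
      hc hs he hn hw ht hr hp g4 g3 g1
      (by rw [h4]; linarith) (by rw [h3]; linarith) (by rw [h1]; linarith)
    rw [h2]; linarith
  -- 1 2
  · have := two_adj (c := c) (n := n) (e := e) (w := w) (ne := p) (nw := q) hc hn he hw hp hq g1 g2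
      (by rw [h1]; linarith) (by rw [h2]; linarith)
    rw [h3, h4]; linarith
  -- 1 2 4 : middle 1
  · have := three (c := c) (n := n) (e := e) (s := s) (w := w) (ne := p) (nw := q) (se := t)
      hc hn he hs hw hp hq ht g1 g2 g4
      (by rw [h1]; linarith) (by rw [h2]; linarith) (by rw [h4]; linarith)
    rw [h3]; linarith
  -- 1 2 3 : middle 2
  · have := three (c := c) (n := n) (e := w) (s := s) (w := e) (ne := q) (nw := p) (se := r)
      hc hn hw hs he hq hp hr g2 g1 g3
      (by rw [h2]; linarith) (by rw [h1]; linarith) (by rw [h3]; linarith)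
    rw [h4]; linarith
  -- all
  · have := four (c := c) (n := n) (e := e) (s := s) (w := w) (p := p) (q := q) (r := r) (t := t)
      hn he hs hw hp hq hr ht g1 g2 g3 g4
      (by rw [h1]; linarith) (by rw [h2]; linarith) (by rw [h3]; linarith) (by rw [h4]; linarith)
    linarith

end Pool.Agent.R957.MaxU
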